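import Pool.Agent.SCT.StmtsC

set_option autoImplicit false

/-!
# Squad SCT (MP_02d4f5_ag), row SCL: scaling of the point `x`
-/

namespace Pool.Agent.SCT.H44

open MvPolynomial

theorem scl_pt (k : Type) [Field k] (n : ℕ) (x : Fin (n + 2) → FT k n) (u : Cl k n) (s : FT k n)
    (hs : s ≠ 0) :
    pt k n (fun i => s * x i) (u / algebraMap (FT k n) (Cl k n) s) = pt k n x u := by
  have hS : algebraMap (FT k n) (Cl k n) s ≠ 0 := by
    intro h
    exact hs ((map_eq_zero _).mp h)
  funext i
  unfold pt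
  rw [map_mul]
  field_simp

theorem scl (h1 : ExpStmt) : SclStmt := by
  intro k _ n a b f x u v s hf hs h
  have hS : algebraMap (FT k n) (Cl k n) s ≠ 0 := by
    intro h0
    exact hs ((map_eq_zero _).mp h0)
  obtain ⟨_, _, _, e4, e5⟩ := h1 k (FT k n) (Fin (n + 2)) f hf x (gen k n) s
  refine ⟨?_, ?_, ?_, ?_, ?_, ?_⟩
  · intro h0
    apply h.ne
    funext i
    have := congrFun h0 i
    simp only [Pi.zero_apply, mul_eq_zero] at this
    rcases this with h2 | h2
    · exact absurd h2 hs
    · exact h2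
  · rw [e4, h.zero, mul_zero]
  · rw [e5, dd_smul, map_mul, h.sum, map_mul, map_pow]
    field_simp
  · rw [e5, map_mul, map_pow, h.prod]
    field_simp
  · rw [scl_pt k n x u s hs]
    exact h.dimu
  · rw [scl_pt k n x v s hs]
    exact h.dimv

end Pool.Agent.SCT.H44
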